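import Pool.Agent.Helper57.VC2.Crisp

set_option autoImplicit false

/-!
A finite colouring without monochromatic solutions of `x ^ 2 + y ^ 2 = z ^ 2` has a colour class
all of whose patterns occur: its dilates shatter sets of every size.
-/

namespace Pool.Agent.Results.MP_6ee505_co.AllPatterns

/-- `A` contains distinct positive `x, y, z` with `a x ^ 2 + b y ^ 2 = c z ^ 2`. -/
def HasSol (a b c : ℤ) (A : Set ℕ) : Prop :=
  ∃ x ∈ A, ∃ y ∈ A, ∃ z ∈ A, 0 < x ∧ 0 < y ∧ 0 < z ∧ x ≠ y ∧ y ≠ z ∧ x ≠ z ∧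
    a * (x : ℤ) ^ 2 + b * (y : ℤ) ^ 2 = c * (z : ℤ) ^ 2

/-- For nonzero integers `a, b, c` such that `a c` and `b c` are squares, Rado's condition `a = c` or
`b = c` or `a + b = c` holds if and only if for all `r` and `d` there is `N` such that for each
colouring with `r` colours there is a solution in one colour in `[1, N]`, or there are a colour `i`
and `d` positive integers such that for each subset `T` of the set `K` of these integers some
`n > 0` has `n K` in `[1, N]` and `n k` of the colour `i` exactly for the `k` in `T`. -/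
theorem result (a b c : ℤ) (ha : a ≠ 0) (hb : b ≠ 0) (hc : c ≠ 0) (hac : IsSquare (a * c))
    (hbc : IsSquare (b * c)) :
    (a = c ∨ b = c ∨ a + b = c) ↔ ∀ r d : ℕ, ∃ N : ℕ, ∀ χ : ℕ → Fin r,
      (∃ i, HasSol a b c {n | n ≤ N ∧ χ n = i}) ∨
        ∃ (i : Fin r) (K : Finset ℕ), K.card = d ∧ (∀ k ∈ K, 0 < k) ∧
          ∀ T ⊆ K, ∃ n : ℕ, 0 < n ∧ ∀ k ∈ K, n * k ≤ N ∧ (χ (n * k) = i ↔ k ∈ T) :=
  Pool.Agent.Helper57.VC2.crisp a b c ha hb hc hac hbc

end Pool.Agent.Results.MP_6ee505_co.AllPatterns
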