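import Pool.Agent.Helper4.PT.Main

set_option autoImplicit false

/-!
Partition regularity of `a x ^ 2 + b y ^ 2 = c z ^ 2` (`a c` and `b c` squares) relative to the
colourings for which the colour of `p n` depends only on the colour of `n`, for most primes `p`.
-/

namespace Pool.Agent.Results.MP_6ee505_co.AlmostMultiplicative

open Pool.Agent.Helper4.PT

theorem result (a b c : ℤ) (ha : a ≠ 0) (hb : b ≠ 0) (hc : c ≠ 0) (hac : IsSquare (a * c))
    (hbc : IsSquare (b * c)) :
    List.TFAE [a = c ∨ b = c ∨ a + b = c,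
      ∀ (r : ℕ) (χ : ℕ → Fin r), (∀ p : ℕ, p.Prime → Determined χ p) → HasMono a b c χ,
      ∀ (r : ℕ) (χ : ℕ → Fin r), AlmostMult χ → HasMono a b c χ,
      ∀ (Y : Type) (_ : PseudoMetricSpace Y) (F : ℕ → Y), TotallyBounded (Set.range F) →
        AlmostNonExpanding F → ∀ ε : ℝ, 0 < ε → HasClose a b c F ε] :=
  main a b c ha hb hc hac hbc

end Pool.Agent.Results.MP_6ee505_co.AlmostMultiplicative
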