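import Pool.Agent.Helper66.DW.Main

set_option autoImplicit false

/-!
Rado's criterion for `a x ^ 2 + b y ^ 2 = c z ^ 2` relative to the colourings of bounded digital
width: the colour is computed by reading the base `q` digits once, with boundedly many states and
rules that may depend on the position.
-/

namespace Pool.Agent.Results.MP_6ee505_co.DigitalWidth

open Pool.H66.DW

theorem result (a b c : ℤ) (ha : a ≠ 0) (hb : b ≠ 0) (hc : c ≠ 0) : List.TFAE [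
    a + b = 0 ∨ a = c ∨ b = c ∨ a + b = c,
    ∀ q : ℕ, 2 ≤ q → ∀ r w : ℕ, ∃ l : ℕ, ∀ (χ : ℕ → Fin r) (k : ℕ),
      (∀ i ≤ l, (rows q χ (k + i)).ncard ≤ w) →
      ∃ x y z : ℕ, 0 < x ∧ 0 < y ∧ 0 < z ∧ x ≠ y ∧ y ≠ z ∧ x ≠ z ∧ χ x = χ y ∧ χ y = χ z ∧
        a * (x : ℤ) ^ 2 + b * (y : ℤ) ^ 2 = c * (z : ℤ) ^ 2 ∧
        (q ^ k ∣ x ∧ q ^ k ∣ y ∧ q ^ k ∣ z) ∧
        (x < q ^ (k + l) ∧ y < q ^ (k + l) ∧ z < q ^ (k + l)),
    ∀ q : ℕ, 2 ≤ q → ∀ (r : ℕ) (χ : ℕ → Fin r), (∃ w, ∀ i, (rows q χ i).ncard ≤ w) →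
      HasSol a b c χ,
    ∃ q : ℕ, 2 ≤ q ∧ ∀ (r : ℕ) (χ : ℕ → Fin r), Automatic q χ → HasSol a b c χ] :=
  main a b c ha hb hc

end Pool.Agent.Results.MP_6ee505_co.DigitalWidth
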