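import Pool.Agent.Helper66.PU.Main

set_option autoImplicit false

/-!
Partition regularity of `a x ^ 2 + b y ^ 2 = c z ^ 2` (`a c` and `b c` squares) relative to the
colourings which are pairs of a multiplicative colouring (the colour of `p n` is determined by the
colour of `n`, for every prime `p`; or, more generally, a totally bounded map for which the
multiplication by every prime is nonexpanding) and an automatic colouring (in an arbitrary base).
-/

namespace Pool.Agent.Results.MP_6ee505_co.MultiplicativeAutomatic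

open Pool.Agent.Helper4.PT Pool.H66.DW

theorem result (a b c : ℤ) (ha : a ≠ 0) (hb : b ≠ 0) (hc : c ≠ 0) (hac : IsSquare (a * c))
    (hbc : IsSquare (b * c)) :
    List.TFAE [a = c ∨ b = c ∨ a + b = c,
      ∀ q : ℕ, 2 ≤ q → ∀ (r : ℕ) (χ : ℕ → Fin r), Automatic q χ →
        ∀ (Y : Type) (_ : PseudoMetricSpace Y) (F : ℕ → Y), TotallyBounded (Set.range F) →
        (∀ p : ℕ, p.Prime → NonExpanding F p) → ∀ ε : ℝ, 0 < ε →
        ∃ x y z : ℕ, 0 < x ∧ 0 < y ∧ 0 < z ∧ x ≠ y ∧ y ≠ z ∧ x ≠ z ∧ χ x = χ y ∧ χ y = χ z ∧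
          dist (F x) (F y) < ε ∧ dist (F x) (F z) < ε ∧
          a * (x : ℤ) ^ 2 + b * (y : ℤ) ^ 2 = c * (z : ℤ) ^ 2,
      ∀ q : ℕ, 2 ≤ q → ∀ (r s : ℕ) (χ : ℕ → Fin r) (ψ : ℕ → Fin s), Automatic q χ →
        (∀ p : ℕ, p.Prime → Determined ψ p) → HasSol a b c (fun n => (χ n, ψ n)),
      ∃ q : ℕ, 2 ≤ q ∧ ∀ (r s : ℕ) (χ : ℕ → Fin r) (ψ : ℕ → Fin s), Automatic q χ →
        (∀ p : ℕ, p.Prime → Determined ψ p) → HasSol a b c (fun n => (χ n, ψ n))] :=
  Pool.H66.PU.main a b c ha hb hc hac hbc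

end Pool.Agent.Results.MP_6ee505_co.MultiplicativeAutomatic
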